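import Mathlib

/-!
# MP_b60056_nt: one of the integers `m, …, m+k` divides the product of the others

`g m` is the least positive `k` such that some member of the block `m, m+1, …, m+k`
divides the product of the other members.  We prove `g m ≤ 40 * m ^ (2/5)` for all `m ≥ 2`.
-/

namespace Pool.Agent.Results.MP_b60056_nt.TwoFifths

open Finset

/-- Some member `m + i` (`0 ≤ i ≤ k`) of the block `m, m + 1, …, m + k` divides the product of
the other members. -/
def Good (m k : ℕ) : Prop :=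
  ∃ i ∈ range (k + 1), (m + i) ∣ ∏ j ∈ (range (k + 1)).erase i, (m + j)

/-- The least positive `k` for which the block `m, …, m + k` has the property `Good`. -/
noncomputable def g (m : ℕ) : ℕ := sInf {k : ℕ | 0 < k ∧ Good m k}

/-- A product `a * b * c` lying in the block, far enough from its right end, divides the product
of the other members. -/
lemma good_of_product {m k a b c B : ℕ} (ha : 0 < a) (hb : 0 < b) (hc : 0 < c)
    (haB : a ≤ B) (hbB : b ≤ B) (hcB : c ≤ B)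
    (h1 : m ≤ a * b * c) (h2 : a * b * c + 3 * B ≤ m + k) : Good m k := by
  obtain ⟨i, hi⟩ := Nat.exists_eq_add_of_le h1
  -- the three offsets
  obtain ⟨y, hy0, hyB, hby, hyc⟩ : ∃ y, 0 < y ∧ y ≤ 2 * B ∧ b ∣ y ∧ y ≠ c := by
    by_cases h : b = c
    · exact ⟨2 * b, by omega, by omega, ⟨2, by ring⟩, by omega⟩
    · exact ⟨b, hb, by omega, dvd_rfl, h⟩
  obtain ⟨x, hx0, hxB, hax, hxc, hxy⟩ :
      ∃ x, 0 < x ∧ x ≤ 3 * B ∧ a ∣ x ∧ x ≠ c ∧ x ≠ y := by
    by_cases h1 : a ≠ c ∧ a ≠ y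
    · exact ⟨a, ha, by omega, dvd_rfl, h1.1, h1.2⟩
    · by_cases h2 : 2 * a ≠ c ∧ 2 * a ≠ y
      · exact ⟨2 * a, by omega, by omega, ⟨2, by ring⟩, h2.1, h2.2⟩
      · exact ⟨3 * a, by omega, by omega, ⟨3, by ring⟩, by omega, by omega⟩
  refine ⟨i, by rw [mem_range]; omega, ?_⟩
  have hsub : ({i + c, i + y, i + x} : Finset ℕ) ⊆ (range (k + 1)).erase i := by
    intro t ht
    simp only [mem_insert, mem_singleton] at ht
    rw [mem_erase, mem_range]
    constructor <;> omega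
  have hprod : ∏ j ∈ ({i + c, i + y, i + x} : Finset ℕ), (m + j)
      = (m + (i + c)) * ((m + (i + y)) * (m + (i + x))) := by
    rw [prod_insert, prod_insert, prod_singleton]
    · simp only [mem_singleton]; omega
    · simp only [mem_insert, mem_singleton]; omega
  have hdvd : a * b * c ∣ ∏ j ∈ ({i + c, i + y, i + x} : Finset ℕ), (m + j) := by
    rw [hprod]
    have e1 : m + (i + c) = a * b * c + c := by omega
    have e2 : m + (i + y) = a * b * c + y := by omega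
    have e3 : m + (i + x) = a * b * c + x := by omega
    rw [e1, e2, e3]
    have d1 : c ∣ a * b * c + c := Dvd.dvd.add (Dvd.intro_left _ rfl) dvd_rfl
    have d2 : b ∣ a * b * c + y :=
      Dvd.dvd.add (Dvd.dvd.mul_right (Dvd.intro_left _ rfl) _) hby
    have d3 : a ∣ a * b * c + x :=
      Dvd.dvd.add (Dvd.dvd.mul_right (Dvd.intro _ rfl) _) hax
    have := mul_dvd_mul d1 (mul_dvd_mul d2 d3)
    have e : a * b * c = c * (b * a) := by ring
    rw [e] at this ⊢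
    exact this
  rw [← hi]
  exact hdvd.trans (prod_dvd_prod_of_subset _ _ _ hsub)

/-- The construction: for every `m ≥ 2` there is `z ≥ 2` with `(z - 1) ^ 5 < m` such that the block
`m, …, m + 10 z ^ 2` has the property. -/
lemma exists_good {m : ℕ} (hm : 2 ≤ m) :
    ∃ z : ℕ, 2 ≤ z ∧ (z - 1) ^ 5 < m ∧ Good m (10 * z ^ 2) := by
  classical
  -- z
  have hex : ∃ z : ℕ, m ≤ z ^ 5 := ⟨m, Nat.le_self_pow (by norm_num) m⟩
  obtain ⟨z, hz, hzmin⟩ : ∃ z : ℕ, m ≤ z ^ 5 ∧ ∀ y < z, y ^ 5 < m :=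
    ⟨Nat.find hex, Nat.find_spec hex, fun y hy => not_le.1 (Nat.find_min hex hy)⟩
  have hz2 : 2 ≤ z := by
    by_contra h
    have : z ≤ 1 := by omega
    have : z ^ 5 ≤ 1 ^ 5 := Nat.pow_le_pow_left this 5
    omega
  refine ⟨z, hz2, hzmin _ (by omega), ?_⟩
  -- M
  obtain ⟨M, hM1, hM2⟩ : ∃ M : ℕ, m ≤ z * M ∧ z * M < m + z := by
    have hdm := Nat.div_add_mod (m + z - 1) z
    have hmod := Nat.mod_lt (m + z - 1) (show 0 < z by omega)
    exact ⟨(m + z - 1) / z, by omega, by omega⟩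
  have hM0 : 0 < M := by
    rcases Nat.eq_zero_or_pos M with h | h
    · subst h; omega
    · exact h
  have hMz : M ≤ z ^ 4 := by
    by_contra h
    have h' : z ^ 4 + 1 ≤ M := by omega
    have : z * (z ^ 4 + 1) ≤ z * M := Nat.mul_le_mul_left z h'
    have e : z * (z ^ 4 + 1) = z ^ 5 + z := by ring
    omega
  -- w
  have hexw : ∃ w : ℕ, M ≤ w ^ 2 := ⟨M, Nat.le_self_pow (by norm_num) M⟩
  obtain ⟨w, hw, hwmin⟩ : ∃ w : ℕ, M ≤ w ^ 2 ∧ ∀ y < w, y ^ 2 < M :=
    ⟨Nat.find hexw, Nat.find_spec hexw, fun y hy => not_le.1 (Nat.find_min hexw hy)⟩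
  have hw0 : 0 < w := by
    rcases Nat.eq_zero_or_pos w with h | h
    · subst h; omega
    · exact h
  have hwz : w ≤ z ^ 2 := by
    by_contra h
    have := hwmin (z ^ 2) (by omega)
    have e : (z ^ 2) ^ 2 = z ^ 4 := by ring
    omega
  obtain ⟨v, rfl⟩ : ∃ v, w = v + 1 := ⟨w - 1, by omega⟩
  have hv : v ^ 2 < M := hwmin v (by omega)
  -- T
  obtain ⟨T, hT⟩ := Nat.exists_eq_add_of_le hw
  have hT2 : T ≤ 2 * v := by
    have e : (v + 1) ^ 2 = v ^ 2 + 2 * v + 1 := by ring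
    omega
  -- q
  obtain ⟨q, hq1, hq2⟩ : ∃ q : ℕ, q * q ≤ T ∧ T < (q + 1) * (q + 1) :=
    ⟨Nat.sqrt T, Nat.sqrt_le T, Nat.lt_succ_sqrt T⟩
  have hqv : q ≤ v := by
    by_contra h
    have h' : v + 1 ≤ q := by omega
    have := Nat.mul_le_mul h' h'
    nlinarith
  obtain ⟨b, hb⟩ : ∃ b, v + 1 = q + b := Nat.exists_eq_add_of_le (by omega)
  have hb0 : 0 < b := by omega
  obtain ⟨r, hr⟩ := Nat.exists_eq_add_of_le hq1
  have hr2 : r ≤ 2 * q := by
    have e : (q + 1) * (q + 1) = q * q + 2 * q + 1 := by ring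
    omega
  have hbc : b * (v + 1 + q) = M + r := by
    have e1 : (v + 1) ^ 2 = b * (v + 1 + q) + q * q := by rw [hb]; ring
    omega
  have hzz : z ≤ z ^ 2 := Nat.le_self_pow (by norm_num) z
  -- bound for q z
  have hqz : 2 * (q * z) ≤ 3 * z ^ 2 := by
    have h1 : q * q ≤ 2 * z ^ 2 := by omega
    have h2 : (2 * (q * z)) ^ 2 ≤ (3 * z ^ 2) ^ 2 := by
      have e1 : (2 * (q * z)) ^ 2 = 4 * ((q * q) * z ^ 2) := by ring
      have e2 : (3 * z ^ 2) ^ 2 = 9 * (z ^ 2 * z ^ 2) := by ring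
      rw [e1, e2]
      have := Nat.mul_le_mul_right (z ^ 2) h1
      nlinarith
    exact (Nat.pow_le_pow_iff_left (by norm_num)).1 h2
  have hN : z * b * (v + 1 + q) = z * M + z * r := by
    rw [mul_assoc, hbc]; ring
  have hzr : z * r ≤ 2 * (q * z) := by nlinarith
  refine good_of_product (a := z) (b := b) (c := v + 1 + q) (B := 2 * z ^ 2)
    (by omega) hb0 (by omega) (by omega) (by omega) (by omega) ?_ ?_
  · rw [hN]; omega
  · rw [hN]; omega

/-- For every `m ≥ 2`: `g m` is positive, the block `m, …, m + g m` has the property, no shorter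
block does, and `g m ≤ 40 * m ^ (2/5)`. -/
theorem result : ∀ m : ℕ, 2 ≤ m →
    0 < g m ∧ Good m (g m) ∧ (∀ k : ℕ, 0 < k → k < g m → ¬ Good m k) ∧
      (g m : ℝ) ≤ 40 * (m : ℝ) ^ ((2 : ℝ) / 5) := by
  intro m hm
  obtain ⟨z, hz2, hz5, hgood⟩ := exists_good hm
  have hmem : 10 * z ^ 2 ∈ {k : ℕ | 0 < k ∧ Good m k} := ⟨by positivity, hgood⟩
  have hne : {k : ℕ | 0 < k ∧ Good m k}.Nonempty := ⟨_, hmem⟩
  have hg := Nat.sInf_mem hne
  have hle : g m ≤ 10 * z ^ 2 := Nat.sInf_le hmem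
  refine ⟨hg.1, hg.2, ?_, ?_⟩
  · intro k hk hkg hgk
    exact absurd (Nat.sInf_le (show k ∈ {k : ℕ | 0 < k ∧ Good m k} from ⟨hk, hgk⟩)) (not_le.2 hkg)
  · -- z ≤ 2 (z - 1) < 2 m^(1/5)
    obtain ⟨y, rfl⟩ : ∃ y, z = y + 1 := ⟨z - 1, by omega⟩
    have hy1 : 1 ≤ y := by omega
    have hy5 : y ^ 5 < m := by simpa using hz5
    have hm0 : (0 : ℝ) ≤ (m : ℝ) := Nat.cast_nonneg m
    have hyr : (y : ℝ) ^ 5 ≤ (m : ℝ) := by exact_mod_cast hy5.le
    have hyle : (y : ℝ) ≤ (m : ℝ) ^ ((1 : ℝ) / 5) := by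
      have h := Real.rpow_le_rpow (by positivity) hyr (show (0 : ℝ) ≤ 1 / 5 by norm_num)
      rw [← Real.rpow_natCast, ← Real.rpow_mul (by positivity)] at h
      norm_num at h
      norm_num
      exact h
    have hsq : (y : ℝ) ^ 2 ≤ (m : ℝ) ^ ((2 : ℝ) / 5) := by
      have h := pow_le_pow_left₀ (by positivity) hyle 2
      rw [← Real.rpow_natCast ((m : ℝ) ^ ((1 : ℝ) / 5)), ← Real.rpow_mul hm0] at h
      norm_num at h
      norm_num
      exact h
    have hyr1 : (1 : ℝ) ≤ (y : ℝ) := by exact_mod_cast hy1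
    have hle' : (g m : ℝ) ≤ 10 * ((y : ℝ) + 1) ^ 2 := by
      have : ((g m : ℕ) : ℝ) ≤ ((10 * (y + 1) ^ 2 : ℕ) : ℝ) := by exact_mod_cast hle
      push_cast at this
      exact this
    nlinarith

end Pool.Agent.Results.MP_b60056_nt.TwoFifths
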